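import Pool.Agent.helper39.MT.Defs

/-!
# Maynard-Tao, module TR2: a crude pointwise bound for the sieve weight
-/

namespace Pool.Agent.helper39.MT

open Finset Real ArithmeticFunction

lemma h83_abs_Phi_le {k : ℕ} (p : ℝ) (hp : 2 ≤ p) (s e : Option (Fin k)) : |Phi p s e| ≤ 1 := by
  cases s with
  | none => simp [Phi]
  | some i =>
    simp only [Phi]
    rw [abs_div, abs_of_pos (by linarith : (0 : ℝ) < p - 1), div_le_one (by linarith)]
    split_ifs
    · rw [abs_le]; constructor <;> linarith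
    · rw [abs_le]; constructor <;> linarith

lemma h83_card_fiber {ι : Type*} [Fintype ι] [DecidableEq ι] {k : ℕ} (S : Finset ι) :
    #{σ : ι → Option (Fin k) | ∀ p, σ p ≠ none ↔ p ∈ S} = k ^ #S := by
  have h1 : ({σ : ι → Option (Fin k) | ∀ p, σ p ≠ none ↔ p ∈ S} : Finset _) =
      Fintype.piFinset (fun p => if p ∈ S then (univ.filter (fun s : Option (Fin k) => s ≠ none))
        else {none}) := by
    ext σ
    simp only [mem_filter, mem_univ, true_and, Fintype.mem_piFinset]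
    refine forall_congr' fun p => ?_
    by_cases hp : p ∈ S <;> simp [hp]
  rw [h1, Fintype.card_piFinset]
  have h2 : ∀ p : ι, #(if p ∈ S then (univ.filter (fun s : Option (Fin k) => s ≠ none))
        else {none}) = if p ∈ S then k else 1 := by
    intro p
    by_cases hp : p ∈ S
    · simp only [hp, if_true]
      have : (univ.filter (fun s : Option (Fin k) => s ≠ none)) = univ.erase none := by
        ext s; simp
      rw [this, card_erase_of_mem (mem_univ _)]
      simp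
    · simp [hp]
  simp only [h2]
  rw [prod_ite]
  simp

lemma h83_dd_eq {ι : Type*} [Fintype ι] [DecidableEq ι] {k : ℕ} (pr : ι → ℕ) (S : Finset ι)
    (σ : ι → Option (Fin k)) (h : ∀ p, σ p ≠ none ↔ p ∈ S) : dd pr σ = ∏ p ∈ S, pr p := by
  unfold dd
  rw [← prod_filter_mul_prod_filter_not univ (fun p => p ∈ S)]
  have h1 : ∏ x ∈ univ.filter (fun p => p ∉ S), (if σ x = none then 1 else pr x) = 1 := by
    refine prod_eq_one fun x hx => ?_
    have : x ∉ S := (mem_filter.1 hx).2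
    have h2 : ¬ σ x ≠ none := fun h3 => this ((h x).1 h3)
    rw [not_not] at h2
    simp [h2]
  rw [h1, mul_one]
  have h2 : univ.filter (fun p => p ∈ S) = S := by ext; simp
  rw [h2]
  refine prod_congr rfl fun x hx => ?_
  have := (h x).2 hx
  simp [this]

/-- The number of labels with `dd ≤ R`. -/
lemma h83_card_labels (k W R : ℕ) (hW : ∀ p : ℕ, p.Prime → p ≤ k → p ∣ W) :
    #{σ : PS W R → Option (Fin k) | dd (fun p : PS W R => (p : ℕ)) σ ≤ R} ≤ R ^ 2 := by
  classical
  have hk : ∀ p : PS W R, k ≤ (p : ℕ) := by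
    intro p
    have hp := mem_PS.1 p.2
    by_contra h
    exact hp.2.2 (hW _ hp.2.1 (by omega))
  set T : Finset (Finset (PS W R)) := {S | ∏ p ∈ S, (p : ℕ) ≤ R} with hT
  have h1 : #{σ : PS W R → Option (Fin k) | dd (fun p : PS W R => (p : ℕ)) σ ≤ R} ≤
      ∑ S ∈ T, #{σ : PS W R → Option (Fin k) | ∀ p, σ p ≠ none ↔ p ∈ S} := by
    refine le_trans (card_le_card ?_) (card_biUnion_le)
    intro σ hσ
    simp only [mem_filter, mem_univ, true_and] at hσ
    rw [mem_biUnion]
    refine ⟨univ.filter (fun p => σ p ≠ none), ?_, ?_⟩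
    · rw [hT, mem_filter]
      refine ⟨mem_univ _, ?_⟩
      rw [← h83_dd_eq (fun p : PS W R => (p : ℕ)) (univ.filter (fun p => σ p ≠ none)) σ
        (by intro p; simp)]
      exact hσ
    · simp
  refine h1.trans ?_
  have h2 : ∀ S ∈ T, #{σ : PS W R → Option (Fin k) | ∀ p, σ p ≠ none ↔ p ∈ S} ≤
      ∏ p ∈ S, (p : ℕ) := by
    intro S _
    rw [h83_card_fiber]
    rw [← prod_const]
    exact prod_le_prod' fun p _ => hk p
  refine (sum_le_sum h2).trans ?_
  have hinj : ∀ S ∈ T, ∀ S' ∈ T, ∏ p ∈ S, (p : ℕ) = ∏ p ∈ S', (p : ℕ) → S = S' := by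
    intro S _ S' _ h
    have key : ∀ S : Finset (PS W R), (∏ p ∈ S, (p : ℕ)).primeFactors = S.map (Function.Embedding.subtype _) := by
      intro S
      have := Nat.primeFactors_prod (s := S.map (Function.Embedding.subtype _)) (by
        intro p hp
        rw [mem_map] at hp
        obtain ⟨x, _, rfl⟩ := hp
        exact (mem_PS.1 x.2).2.1)
      rw [prod_map] at this
      exact this
    have h3 := key S
    rw [h, key S'] at h3
    exact (map_injective _ h3).symm
  have h3 : ∑ S ∈ T, ∏ p ∈ S, (p : ℕ) = ∑ D ∈ T.image (fun S : Finset (PS W R) => ∏ p ∈ S, (p : ℕ)), D := by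
    rw [sum_image]
    intro S hS S' hS' h
    exact hinj S hS S' hS' h
  rw [h3]
  have h4 : T.image (fun S : Finset (PS W R) => ∏ p ∈ S, (p : ℕ)) ⊆ Icc 1 R := by
    intro D hD
    rw [mem_image] at hD
    obtain ⟨S, hS, rfl⟩ := hD
    rw [mem_Icc]
    refine ⟨?_, (mem_filter.1 hS).2⟩
    exact Nat.one_le_iff_ne_zero.2 (prod_ne_zero_iff.2 fun p _ => (mem_PS.1 p.2).2.1.ne_zero)
  refine (sum_le_sum_of_subset h4).trans ?_
  calc ∑ D ∈ Icc 1 R, D ≤ ∑ D ∈ Icc 1 R, R := sum_le_sum fun D hD => (mem_Icc.1 hD).2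
    _ = R ^ 2 := by simp [sq]

/-- TR2: a crude pointwise bound. -/
theorem FF_crude (k W R : ℕ) (hW : ∀ p : ℕ, p.Prime → p ≤ 4 * k + 4 → p ∣ W)
    (y : (PS W R → Option (Fin k)) → ℝ) (hy : ∀ σ, |y σ| ≤ 1)
    (hy' : ∀ σ, y σ ≠ 0 → dd (fun p : PS W R => (p : ℕ)) σ ≤ R) (e : PS W R → Option (Fin k)) :
    FF (fun p : PS W R => (p : ℕ)) y e ^ 2 ≤ (R : ℝ) ^ 4 := by
  have h1 : |FF (fun p : PS W R => (p : ℕ)) y e| ≤ (R : ℝ) ^ 2 := by
    unfold FF
    refine (abs_sum_le_sum_abs _ _).trans ?_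
    have h2 : ∀ σ : PS W R → Option (Fin k),
        |y σ * ∏ p, Phi (((fun p : PS W R => (p : ℕ)) p : ℕ) : ℝ) (σ p) (e p)| ≤
        if dd (fun p : PS W R => (p : ℕ)) σ ≤ R then 1 else 0 := by
      intro σ
      by_cases h0 : y σ = 0
      · rw [h0, zero_mul, abs_zero]; split_ifs <;> norm_num
      · rw [if_pos (hy' σ h0), abs_mul, abs_prod]
        refine mul_le_one₀ (hy σ) (prod_nonneg fun _ _ => abs_nonneg _)
          (prod_le_one (fun _ _ => abs_nonneg _) fun p _ => h83_abs_Phi_le _ ?_ _ _)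
        exact_mod_cast (mem_PS.1 p.2).2.1.two_le
    refine (sum_le_sum fun σ _ => h2 σ).trans ?_
    rw [← sum_filter, sum_const, nsmul_eq_mul, mul_one]
    exact_mod_cast h83_card_labels k W R (fun p hp hpk => hW p hp (by omega))
  calc FF (fun p : PS W R => (p : ℕ)) y e ^ 2 = |FF (fun p : PS W R => (p : ℕ)) y e| ^ 2 := (sq_abs _).symm
    _ ≤ ((R : ℝ) ^ 2) ^ 2 := by gcongr
    _ = (R : ℝ) ^ 4 := by ring

end Pool.Agent.helper39.MT
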